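import Pool.Agent.N557.BP.Stm

set_option autoImplicit false

/-!
# BP/MEET (helper415)
-/

namespace Pool.Agent.N415.BP

open Complex Set MeasureTheory Filter Topology Pool.Agent.W780.PG Pool.Agent.W780.BB
  Pool.Agent.TH103.BL Pool.Agent.N557.BP

open scoped Real ComplexConjugate

theorem conj_dir (θ : ℝ) : conj (dir θ) * dir θ = 1 := by
  rw [mul_comm, Complex.mul_conj, normSq_eq_norm_sq, norm_dir]
  norm_num

theorem tv_add (θ : ℝ) (a b : ℂ) : tv θ (a + b) = tv θ a + tv θ b := by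
  unfold tv
  rw [mul_add, add_im]

theorem tv_normal (θ x : ℝ) : tv θ (x • (I * dir θ)) = x := by
  unfold tv
  have : conj (dir θ) * (x • (I * dir θ)) = (x : ℂ) * (I * (conj (dir θ) * dir θ)) := by
    rw [real_smul]; ring
  rw [this, conj_dir, mul_one, im_ofReal_mul, I_im, mul_one]

theorem tv_le (θ : ℝ) (w : ℂ) : |tv θ w| ≤ ‖w‖ := by
  unfold tv
  refine (abs_im_le_norm _).trans ?_
  rw [norm_mul, RCLike.norm_conj, norm_dir, one_mul]

theorem sd_ray {n : ℕ} (p : Fin (n + 3) → ℂ) (j : Fin (n + 3)) (X : ℂ) (φ s : ℝ) :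
    sd p j (X + s • dir φ, φ) = sd p j (X, φ) := by
  unfold sd
  simp only
  have : conj (dir φ) * (X + s • dir φ - p j) =
      conj (dir φ) * (X - p j) + (s : ℂ) * (conj (dir φ) * dir φ) := by
    rw [real_smul]; ring
  rw [this, conj_dir, mul_one, add_im, ofReal_im, add_zero]

theorem sd_side {n : ℕ} (p : Fin (n + 3) → ℂ) (a j : Fin (n + 3)) (y : ℂ) (φ y0 : ℝ)
    (h : y - p j = y0 • (p (a + 1) - p a)) : sd p j (y, φ) = - (y0 * sl p a φ) := by
  unfold sd sl
  simp only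
  rw [h]
  have h1 : conj (dir φ) * (y0 • (p (a + 1) - p a)) =
      (y0 : ℂ) * conj (conj (p (a + 1) - p a) * dir φ) := by
    rw [real_smul, map_mul, Complex.conj_conj]; ring
  rw [h1, im_ofReal_mul, conj_im]
  ring

theorem opp_sign (v w μ e : ℝ) (hvw : v * w < 0) (hμ : 0 < μ) (hμ2 : μ ≤ 1 / 2)
    (he : |e| < μ * |v| / 2) :
    (v - (1 - μ) * v + e) * (w - (1 - μ) * v + e) < 0 ∧ |v - (1 - μ) * v + e| < 2 * μ * |v| := by
  obtain ⟨e1, e2⟩ := abs_lt.1 he
  rcases mul_neg_iff.1 hvw with ⟨hv, hw⟩ | ⟨hv, hw⟩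
  · rw [abs_of_pos hv] at e1 e2 ⊢
    have hμv : 0 < μ * v := mul_pos hμ hv
    have h3 : μ * v ≤ 1 / 2 * v := mul_le_mul_of_nonneg_right hμ2 hv.le
    refine ⟨mul_neg_of_pos_of_neg (by nlinarith) (by nlinarith), ?_⟩
    rw [abs_lt]
    constructor <;> nlinarith
  · rw [abs_of_neg hv] at e1 e2 ⊢
    have hμv : 0 < μ * (-v) := mul_pos hμ (by linarith)
    have h3 : μ * (-v) ≤ 1 / 2 * (-v) := mul_le_mul_of_nonneg_right hμ2 (by linarith)
    refine ⟨mul_neg_of_neg_of_pos (by nlinarith) (by nlinarith), ?_⟩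
    rw [abs_lt]
    constructor <;> nlinarith

theorem t_meet : S_Opp → Pool.Agent.N557.BP.S_Exit → S_Shift → S_Stay → S_Meet := by
  intro hOpp hExit hShift hStay n p hp z θ u t O δ K hW j hj hjδ ρ hρ
  -- the other end point
  obtain ⟨jb, hjb, hprod⟩ : ∃ jb : Fin (n + 3), ((j = u K ∧ jb = u K + 1) ∨ (j = u K + 1 ∧ jb = u K)) ∧
      vd p z θ u K j * vd p z θ u K jb < 0 := by
    have h := hOpp n p hp z θ u t O K
    rcases hj with rfl | rfl
    · exact ⟨u K + 1, Or.inl ⟨rfl, rfl⟩, h⟩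
    · exact ⟨u K, Or.inr ⟨rfl, rfl⟩, by rw [mul_comm]; exact h⟩
  set v := vd p z θ u K j with hv
  set vb := vd p z θ u K jb with hvb
  set ψ := angs p θ u K with hψ
  set σ : ℝ := - sl p (u K) ψ with hσ
  have hσ0 : 0 < σ := by
    have := sl_neg hp O K
    rw [hσ]; linarith
  set L : ℝ := ‖p (u K + 1) - p (u K)‖ with hL
  have hL0 : 0 ≤ L := norm_nonneg _
  have hv0 : v ≠ 0 := by
    intro h; rw [h, zero_mul] at hprod; exact lt_irrefl _ hprod
  have hva : 0 < |v| := abs_pos.2 hv0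
  set M : ℝ := 2 * |v| * (L / σ + 1) with hM
  have hM0 : 0 ≤ M := by positivity
  set μ : ℝ := min (1 / 2) (ρ / (4 * (M + 1))) with hμdef
  have hμ0 : 0 < μ := lt_min (by norm_num) (by positivity)
  have hμ2 : μ ≤ 1 / 2 := min_le_left _ _
  have hμρ : μ * M < ρ / 2 := by
    have h1 : μ ≤ ρ / (4 * (M + 1)) := min_le_right _ _
    have h2 : μ * M ≤ ρ / (4 * (M + 1)) * M := mul_le_mul_of_nonneg_right h1 hM0
    have h3 : ρ / (4 * (M + 1)) * M ≤ ρ / 4 := by
      rw [div_mul_eq_mul_div, div_le_div_iff₀ (by positivity) (by norm_num)]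
      nlinarith
    linarith
  set sg : ℝ := (-1) ^ K with hsg
  have hsg2 : sg * sg = 1 := by
    rw [hsg, ← pow_add, ← two_mul, pow_mul]; norm_num
  have hsga : |sg| = 1 := by rw [hsg, abs_pow, abs_neg, abs_one, one_pow]
  set x : ℝ := - (sg * ((1 - μ) * v)) with hx
  have hxa : |x| = (1 - μ) * |v| := by
    rw [hx, abs_neg, abs_mul, hsga, one_mul, abs_mul, abs_of_pos (by linarith)]
  have hxδ : |x| < δ := by
    rw [hxa]
    have : (1 - μ) * |v| < |v| := by nlinarith
    linarith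
  set r : ℝ := min (μ * |v| / 2) (δ - |x|) with hr
  have hr0 : 0 < r := lt_min (by positivity) (by linarith)
  refine ⟨z + x • (I * dir θ), r, hr0, fun z' hz' => ?_⟩
  set z1 : ℂ := z + x • (I * dir θ) with hz1
  have hz1z : ‖z1 - z‖ = |x| := by
    rw [hz1, add_sub_cancel_left, norm_smul, norm_mul, norm_I, norm_dir, Real.norm_eq_abs]
    ring
  have hz'z : ‖z' - z‖ < δ := by
    calc ‖z' - z‖ = ‖(z' - z1) + (z1 - z)‖ := by congr 1; ring
      _ ≤ ‖z' - z1‖ + ‖z1 - z‖ := norm_add_le _ _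
      _ < (δ - |x|) + |x| := by
          rw [hz1z]
          have := hz'.trans_le (min_le_right _ _)
          linarith
      _ = δ := by ring
  refine ⟨hz'z, fun u' t' O' => ?_⟩
  have hst : ∀ m < K, u' m = u m :=
    hStay n p hp z z' θ u u' t t' O O' δ K hW ((tv_le θ _).trans_lt hz'z)
  have hX : srcs p z' u K = srcs p z' u' K := srcs_congr fun i hi => (hst i hi).symm
  have hA : angs p θ u K = angs p θ u' K := angs_congr fun i hi => (hst i hi).symm
  -- the distances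
  set τ : ℝ := tv θ (z' - z1) with hτ
  have hτa : |τ| < μ * |v| / 2 := (tv_le θ _).trans_lt (hz'.trans_le (min_le_left _ _))
  have htv : tv θ (z' - z) = τ + x := by
    have e : z' - z = (z' - z1) + x • (I * dir θ) := by rw [hz1]; ring
    rw [e, tv_add, tv_normal]
  have hvd : ∀ b, vd p z' θ u' K b = vd p z θ u K b - (1 - μ) * v + sg * τ := by
    intro b
    have h1 : vd p z' θ u' K b = vd p z' θ u K b := by
      unfold vd
      rw [hX, hA]
    rw [h1, hShift n p z z' θ u K b, htv]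
    have h2 : sg * x = - ((1 - μ) * v) := by
      rw [hx]
      calc sg * -(sg * ((1 - μ) * v)) = - ((sg * sg) * ((1 - μ) * v)) := by ring
        _ = _ := by rw [hsg2, one_mul]
    rw [mul_add, h2]
    ring
  have he : |sg * τ| < μ * |v| / 2 := by rw [abs_mul, hsga, one_mul]; exact hτa
  obtain ⟨hs1, hs2⟩ := opp_sign v vb μ (sg * τ) hprod hμ0 hμ2 he
  have hvj : vd p z' θ u' K j = v - (1 - μ) * v + sg * τ := hvd j
  have hvjb : vd p z' θ u' K jb = vb - (1 - μ) * v + sg * τ := hvd jb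
  rw [← hvj] at hs1 hs2
  rw [← hvjb] at hs1
  have huK : u' K = u K := by
    refine hExit n p hp z' θ u' t' O' K (u K) ?_ ?_
    · rw [← hA]
      exact sl_neg hp O K
    · rcases hjb with ⟨h1, h2⟩ | ⟨h1, h2⟩
      · rw [← h1, h1, ← h2, ← h1]
        exact hs1
      · rw [← h2, h2, ← h1, ← h2, mul_comm]
        exact hs1
  refine ⟨hst, ?_⟩
  -- the exit point
  set y : ℂ := pt p z' θ u' t' K with hy
  have hys : y ∈ side p (u K) := by
    have := O'.hit K
    rw [huK] at this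
    exact this
  obtain ⟨y0, hy0⟩ : ∃ y0 : ℝ, y - p j = y0 • (p (u K + 1) - p (u K)) := by
    have h1 : y ∈ openSegment ℝ (p (u K)) (p (u K + 1)) := hys
    rw [openSegment_eq_image'] at h1
    obtain ⟨s, hs, hys'⟩ := h1
    simp only at hys'
    rcases hj with h2 | h2
    · refine ⟨s, ?_⟩
      rw [← hys', h2]
      ring
    · refine ⟨s - 1, ?_⟩
      rw [← hys', h2, sub_smul, one_smul]
      ring
  have hvy : vd p z' θ u' K j = y0 * σ := by
    have h1 : vd p z' θ u' K j = sd p j (y, ψ) := by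
      rw [hy, hψ, hA]
      exact (sd_ray p j _ _ _).symm
    rw [h1, sd_side p (u K) j y ψ y0 hy0, hσ]
    ring
  have hyn : ‖y - p j‖ < ρ / 2 := by
    rw [hy0, norm_smul, Real.norm_eq_abs, ← hL]
    have h1 : |y0| = |vd p z' θ u' K j| / σ := by
      rw [hvy, abs_mul, abs_of_pos hσ0, mul_div_assoc, div_self hσ0.ne', mul_one]
    rw [h1]
    have h2 : |vd p z' θ u' K j| / σ * L ≤ 2 * μ * |v| / σ * L := by
      apply mul_le_mul_of_nonneg_right _ hL0
      exact div_le_div_of_nonneg_right hs2.le hσ0.le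
    have h3 : 2 * μ * |v| / σ * L ≤ μ * M := by
      have e1 : μ * M = 2 * μ * |v| / σ * L + 2 * μ * |v| := by
        rw [hM]; field_simp
      have : 0 ≤ 2 * μ * |v| := by positivity
      linarith
    linarith
  refine ⟨max (tp t' K) (t' K - ρ / 2), t' K, max_lt (tp_lt O' K) (by linarith), ?_⟩
  intro s h1 h2
  have a1 := (le_max_left _ _).trans_lt h1
  have a2 := (le_max_right _ _).trans_lt h1
  refine ⟨a1, h2, ?_⟩
  calc ‖ps p z' θ u' K s - p j‖ =
        ‖(ps p z' θ u' K s - ps p z' θ u' K (t' K)) + (ps p z' θ u' K (t' K) - p j)‖ := by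
        congr 1; ring
    _ ≤ ‖ps p z' θ u' K s - ps p z' θ u' K (t' K)‖ + ‖ps p z' θ u' K (t' K) - p j‖ :=
        norm_add_le _ _
    _ < ρ / 2 + ρ / 2 := by
        refine add_lt_add ?_ hyn
        rw [ps_diff, abs_sub_comm, abs_of_pos (by linarith)]
        linarith
    _ = ρ := by ring

end Pool.Agent.N415.BP
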